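import Pool.Agent.TD.GP.Gx
import Pool.Agent.TD.N.Defs

/-!
# Gauss points in several variables (MP_90358a_ag, PAPER2.md)

`gmp z ρ` is the point `|∑ a_u X^u| = max |a_u|_z ρ^u` of `M(A[X_σ])`, `z` in `M(A)`, radii `ρ i ≥ 0`;
`gp ρ` is the case `A = K`.
-/

open scoped Topology NNReal
open MvPolynomial

namespace Pool.Agent.TD

variable {K A σ : Type} [NormedField K] [CommRing A] [Algebra K A]

/-- `ρ^u` -/
noncomputable def mw (ρ : σ → ℝ≥0) (u : σ →₀ ℕ) : ℝ≥0 := u.prod fun i n => ρ i ^ n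

theorem mw_zero (ρ : σ → ℝ≥0) : mw ρ 0 = 1 := Finsupp.prod_zero_index

theorem mw_add (ρ : σ → ℝ≥0) (a b : σ →₀ ℕ) : mw ρ (a + b) = mw ρ a * mw ρ b := by
  classical
  exact Finsupp.prod_add_index' (fun i => pow_zero _) (fun i m n => pow_add _ _ _)

theorem mw_single (ρ : σ → ℝ≥0) (i : σ) (n : ℕ) : mw ρ (Finsupp.single i n) = ρ i ^ n :=
  Finsupp.prod_single_index (pow_zero _)

theorem mw_pos {ρ : σ → ℝ≥0} (hρ : ∀ i, 0 < ρ i) (u : σ →₀ ℕ) : 0 < mw ρ u :=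
  Finset.prod_pos fun i _ => pow_pos (hρ i) _

theorem mw_mono {ρ ρ' : σ → ℝ≥0} (h : ∀ i, ρ i ≤ ρ' i) (u : σ →₀ ℕ) : mw ρ u ≤ mw ρ' u :=
  Finset.prod_le_prod' fun i _ => pow_le_pow_left₀ zero_le (h i) _

theorem continuous_mw (u : σ →₀ ℕ) : Continuous fun ρ : σ → ℝ≥0 => mw ρ u :=
  continuous_finset_prod _ fun i _ => (continuous_apply i).pow _

/-- The value of a Gauss point. -/
noncomputable def gmn (z : Ber K A) (ρ : σ → ℝ≥0) (P : MvPolynomial σ A) : ℝ≥0 :=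
  P.support.sup fun u => z.nv (P.coeff u) * mw ρ u

theorem le_gmn (z : Ber K A) (ρ : σ → ℝ≥0) (P : MvPolynomial σ A) (u : σ →₀ ℕ) :
    z.nv (P.coeff u) * mw ρ u ≤ gmn z ρ P := by
  by_cases hu : u ∈ P.support
  · exact Finset.le_sup (f := fun u => z.nv (P.coeff u) * mw ρ u) hu
  · rw [MvPolynomial.notMem_support_iff.1 hu, Ber.nv_zero, zero_mul]; exact zero_le

theorem gmn_le (z : Ber K A) (ρ : σ → ℝ≥0) (P : MvPolynomial σ A) {M : ℝ≥0}
    (h : ∀ u, z.nv (P.coeff u) * mw ρ u ≤ M) : gmn z ρ P ≤ M :=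
  Finset.sup_le fun u _ => h u

theorem gmn_monomial (z : Ber K A) (ρ : σ → ℝ≥0) (u : σ →₀ ℕ) (a : A) :
    gmn z ρ (monomial u a) = z.nv a * mw ρ u := by
  classical
  apply le_antisymm
  · refine gmn_le _ _ _ fun u' => ?_
    rw [coeff_monomial]
    split_ifs with h
    · rw [h]
    · rw [Ber.nv_zero, zero_mul]; exact zero_le
  · have := le_gmn z ρ (monomial u a) u
    rwa [coeff_monomial, if_pos rfl] at this

theorem gmn_C (z : Ber K A) (ρ : σ → ℝ≥0) (a : A) : gmn z ρ (C a) = z.nv a := by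
  show gmn z ρ (monomial 0 a) = _
  rw [gmn_monomial, mw_zero, mul_one]

theorem gmn_mul [Finite σ] (z : Ber K A) (ρ : σ → ℝ≥0) (P Q : MvPolynomial σ A) :
    gmn z ρ (P * Q) = gmn z ρ P * gmn z ρ Q := by
  classical
  obtain ⟨n, ⟨e⟩⟩ := Finite.exists_equiv_fin σ
  letI : LinearOrder σ := LinearOrder.lift' e e.injective
  have h := Ber.gauss_mul (MonomialOrder.lex (σ := σ)).toSyn.toAddMonoidHom
    (MonomialOrder.lex (σ := σ)).toSyn.injective z (mw ρ) (mw_add ρ) P.coeff Q.coeff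
    P.support Q.support (P * Q).support
    (fun i hi => MvPolynomial.notMem_support_iff.1 hi)
    (fun i hi => MvPolynomial.notMem_support_iff.1 hi)
    (fun i hi => by rw [← coeff_mul]; exact MvPolynomial.notMem_support_iff.1 hi)
  simp only [← coeff_mul] at h
  exact h

/-- **Gauss extension** of `z` to `A[X_σ]` with radii `ρ`. -/
noncomputable def gmp [Finite σ] (z : Ber K A) (ρ : σ → ℝ≥0) : Ber K (MvPolynomial σ A) where
  v f := gmn z ρ f
  nonneg f := NNReal.coe_nonneg _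
  one := by
    rw [← C_1, gmn_C, Ber.coe_nv, z.one]
  mul f g := by
    rw [← NNReal.coe_mul, gmn_mul]
  add f g := by
    rw [← NNReal.coe_max, NNReal.coe_le_coe]
    refine gmn_le _ _ _ fun i => ?_
    have h1 : z.nv ((f + g).coeff i) ≤ max (z.nv (f.coeff i)) (z.nv (g.coeff i)) := by
      rw [coeff_add]; exact z.add _ _
    calc z.nv ((f + g).coeff i) * mw ρ i
        ≤ max (z.nv (f.coeff i)) (z.nv (g.coeff i)) * mw ρ i := mul_le_mul_left h1 _
      _ = max (z.nv (f.coeff i) * mw ρ i) (z.nv (g.coeff i) * mw ρ i) := max_mul _ _ _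
      _ ≤ _ := max_le_max (le_gmn _ _ _ _) (le_gmn _ _ _ _)
  ext c := by
    rw [IsScalarTower.algebraMap_apply K A (MvPolynomial σ A), MvPolynomial.algebraMap_eq, gmn_C,
      Ber.coe_nv, z.ext]

section gmp

variable [Finite σ]

theorem gm_v (z : Ber K A) (ρ : σ → ℝ≥0) (P : MvPolynomial σ A) : (gmp z ρ).v P = gmn z ρ P := rfl

theorem gm_le (z : Ber K A) (ρ : σ → ℝ≥0) (P : MvPolynomial σ A) (u : σ →₀ ℕ) :
    z.v (P.coeff u) * (mw ρ u : ℝ) ≤ (gmp z ρ).v P := by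
  have h := NNReal.coe_le_coe.2 (le_gmn z ρ P u)
  rw [gm_v]
  simpa using h

theorem gm_v_le (z : Ber K A) (ρ : σ → ℝ≥0) (P : MvPolynomial σ A) {M : ℝ} (hM : 0 ≤ M)
    (h : ∀ u, z.v (P.coeff u) * (mw ρ u : ℝ) ≤ M) : (gmp z ρ).v P ≤ M := by
  lift M to ℝ≥0 using hM
  rw [gm_v, NNReal.coe_le_coe]
  refine gmn_le _ _ _ fun u => ?_
  rw [← NNReal.coe_le_coe]
  simpa using h u

theorem gm_ex (z : Ber K A) (ρ : σ → ℝ≥0) (P : MvPolynomial σ A) :
    ∃ u, (gmp z ρ).v P = z.v (P.coeff u) * (mw ρ u : ℝ) := by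
  rcases P.support.eq_empty_or_nonempty with h | h
  · refine ⟨0, ?_⟩
    have h0 : P = 0 := MvPolynomial.support_eq_empty.1 h
    subst h0
    rw [(gmp z ρ).zero, coeff_zero, z.zero, zero_mul]
  · obtain ⟨u, hu, hu'⟩ := Finset.exists_mem_eq_sup P.support h
      (fun u => z.nv (P.coeff u) * mw ρ u)
    refine ⟨u, ?_⟩
    rw [gm_v, gmn, hu']
    simp

theorem gm_monomial (z : Ber K A) (ρ : σ → ℝ≥0) (u : σ →₀ ℕ) (a : A) :
    (gmp z ρ).v (monomial u a) = z.v a * mw ρ u := by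
  rw [gm_v, gmn_monomial]; simp

@[simp] theorem gm_C (z : Ber K A) (ρ : σ → ℝ≥0) (a : A) : (gmp z ρ).v (C a) = z.v a := by
  rw [gm_v, gmn_C, Ber.coe_nv]

@[simp] theorem gm_X (z : Ber K A) (ρ : σ → ℝ≥0) (i : σ) : (gmp z ρ).v (X i) = ρ i := by
  show (gmp z ρ).v (monomial (Finsupp.single i 1) 1) = ρ i
  rw [gm_monomial, z.one, one_mul, mw_single, pow_one]

/-- The Gauss extension is the largest extension. -/
theorem le_gm {z : Ber K A} {ρ : σ → ℝ≥0} {w : Ber K (MvPolynomial σ A)}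
    (h : ∀ a, w.v (C a) ≤ z.v a) (hX : ∀ i, w.v (X i) ≤ ρ i) : w ≤ gmp z ρ := by
  intro P
  conv_lhs => rw [P.as_sum]
  refine w.sum_le _ _ ((gmp z ρ).nonneg P) fun u _ => ?_
  refine le_trans ?_ (gm_le z ρ P u)
  rw [monomial_eq, w.mul]
  refine mul_le_mul (h _) ?_ (w.nonneg _) (z.nonneg _)
  rw [Finsupp.prod, w.prod, mw, Finsupp.prod, NNReal.coe_prod]
  refine Finset.prod_le_prod (fun i _ => w.nonneg _) fun i _ => ?_
  rw [w.pow, NNReal.coe_pow]
  exact pow_le_pow_left₀ (w.nonneg _) (hX i) _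

theorem gm_mono {z z' : Ber K A} {ρ ρ' : σ → ℝ≥0} (h : z ≤ z') (hρ : ∀ i, ρ i ≤ ρ' i) :
    gmp z ρ ≤ gmp z' ρ' := by
  refine le_gm (fun a => ?_) fun i => ?_
  · rw [gm_C]; exact h a
  · rw [gm_X]; exact_mod_cast hρ i

theorem continuous_gm : Continuous fun p : Ber K A × (σ → ℝ≥0) => gmp p.1 p.2 := by
  rw [Ber.continuous_iff]
  intro f
  apply NNReal.continuous_coe.comp
  show Continuous fun p : Ber K A × (σ → ℝ≥0) =>
    f.support.sup fun u => p.1.nv (f.coeff u) * mw p.2 u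
  refine Continuous.finset_sup_apply fun u _ => ?_
  exact ((Ber.continuous_nv (f.coeff u)).comp continuous_fst).mul
    ((continuous_mw u).comp continuous_snd)

end gmp

/-- The point of `M(K)`. -/
noncomputable def nrm (K : Type) [NormedField K] [IsUltrametricDist K] : Ber K K where
  v a := ‖a‖
  nonneg := norm_nonneg
  one := norm_one
  mul := norm_mul
  add := IsUltrametricDist.norm_add_le_max
  ext _ := rfl

section gp

variable [IsUltrametricDist K] [Finite σ]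

/-- The Gauss point with radii `ρ`. -/
noncomputable def gp (ρ : σ → ℝ≥0) : Ber K (MvPolynomial σ K) := gmp (nrm K) ρ

theorem gp_v (ρ : σ → ℝ≥0) (P : MvPolynomial σ K) : (gp ρ).v P = gn ρ P := rfl

theorem isGp_gp (ρ : σ → ℝ≥0) : IsGp ρ (gp ρ : Ber K (MvPolynomial σ K)) := fun _ => rfl

theorem IsGp.eq_gp {ρ : σ → ℝ≥0} {z : Ber K (MvPolynomial σ K)} (h : IsGp ρ z) : z = gp ρ :=
  Ber.ext_v fun P => h P

theorem gn_mul (ρ : σ → ℝ≥0) (P Q : MvPolynomial σ K) : gn ρ (P * Q) = gn ρ P * gn ρ Q :=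
  gmn_mul (nrm K) ρ P Q

omit [Finite σ] in
theorem le_gn (ρ : σ → ℝ≥0) (P : MvPolynomial σ K) (u : σ →₀ ℕ) :
    ‖P.coeff u‖₊ * mw ρ u ≤ gn ρ P := le_gmn (nrm K) ρ P u

theorem gp_le (ρ : σ → ℝ≥0) (P : MvPolynomial σ K) (u : σ →₀ ℕ) :
    ‖P.coeff u‖ * (mw ρ u : ℝ) ≤ (gp ρ).v P := gm_le (nrm K) ρ P u

theorem gp_v_le (ρ : σ → ℝ≥0) (P : MvPolynomial σ K) {M : ℝ} (hM : 0 ≤ M)
    (h : ∀ u, ‖P.coeff u‖ * (mw ρ u : ℝ) ≤ M) : (gp ρ).v P ≤ M := gm_v_le (nrm K) ρ P hM h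

theorem gp_ex (ρ : σ → ℝ≥0) (P : MvPolynomial σ K) :
    ∃ u, (gp ρ).v P = ‖P.coeff u‖ * (mw ρ u : ℝ) := gm_ex (nrm K) ρ P

theorem gp_monomial (ρ : σ → ℝ≥0) (u : σ →₀ ℕ) (a : K) :
    (gp ρ).v (monomial u a) = ‖a‖ * mw ρ u := gm_monomial (nrm K) ρ u a

@[simp] theorem gp_X (ρ : σ → ℝ≥0) (i : σ) : (gp ρ : Ber K (MvPolynomial σ K)).v (X i) = ρ i :=
  gm_X (nrm K) ρ i

/-- A point with `|X_i| ≤ ρ_i` is below the Gauss point. -/
theorem le_gp {ρ : σ → ℝ≥0} {w : Ber K (MvPolynomial σ K)} (hX : ∀ i, w.v (X i) ≤ ρ i) :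
    w ≤ gp ρ :=
  le_gm (fun a => (w.ext a).le) hX

theorem gp_mono {ρ ρ' : σ → ℝ≥0} (h : ∀ i, ρ i ≤ ρ' i) :
    (gp ρ : Ber K (MvPolynomial σ K)) ≤ gp ρ' := gm_mono le_rfl h

theorem continuous_gp : Continuous (gp : (σ → ℝ≥0) → Ber K (MvPolynomial σ K)) :=
  continuous_gm.comp (continuous_const.prodMk continuous_id)

/-- With positive radii the kernel is zero. -/
theorem gp_eq_zero {ρ : σ → ℝ≥0} (hρ : ∀ i, 0 < ρ i) {P : MvPolynomial σ K} :
    (gp ρ).v P = 0 ↔ P = 0 := by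
  constructor
  · intro h
    ext u
    have h1 := gp_le ρ P u
    rw [h] at h1
    have h2 : (0 : ℝ) < mw ρ u := by exact_mod_cast mw_pos hρ u
    have h3 : ‖P.coeff u‖ ≤ 0 := by
      by_contra hc
      push Not at hc
      exact absurd h1 (not_le.2 (mul_pos hc h2))
    rw [coeff_zero]
    exact norm_le_zero_iff.1 h3
  · rintro rfl
    exact Ber.zero _

end gp

/-- The translation of the variable `X_i` of `R[X_σ]`. -/
noncomputable def shM (K : Type) {σ : Type} [NormedField K] (R : Type) [CommRing R] [Algebra K R]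
    [DecidableEq σ] (i : σ) :
    MvPolynomial σ R →ₐ[K] Polynomial (MvPolynomial σ R) :=
  (MvPolynomial.aeval (fun j => Polynomial.C (X j) + if j = i then Polynomial.X else 0) :
    MvPolynomial σ R →ₐ[R] Polynomial (MvPolynomial σ R)).restrictScalars K

section shM

variable {R : Type} [CommRing R] [Algebra K R] [DecidableEq σ]

theorem shM_C (i : σ) (a : R) : shM K R i (C a) = Polynomial.C (C a) := by
  show MvPolynomial.aeval _ (C a) = _
  rw [aeval_C]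
  rfl

theorem shM_X_self (i : σ) : shM K R i (X i) = Polynomial.C (X i) + Polynomial.X := by
  show MvPolynomial.aeval _ (X i) = _
  rw [aeval_X, if_pos rfl]

theorem shM_X_ne {i j : σ} (h : j ≠ i) : shM K R i (X j) = Polynomial.C (X j) := by
  show MvPolynomial.aeval _ (X j) = _
  rw [aeval_X, if_neg h, add_zero]

theorem shM_coeff_zero (i : σ) (P : MvPolynomial σ R) : (shM K R i P).coeff 0 = P := by
  induction P using MvPolynomial.induction_on with
  | C a => rw [shM_C, Polynomial.coeff_C_zero]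
  | add p q hp hq => rw [map_add, Polynomial.coeff_add, hp, hq]
  | mul_X p j hp =>
    rw [map_mul, Polynomial.mul_coeff_zero, hp]
    by_cases h : j = i
    · subst h
      rw [shM_X_self, Polynomial.coeff_add, Polynomial.coeff_C_zero, Polynomial.coeff_X_zero,
        add_zero]
    · rw [shM_X_ne h, Polynomial.coeff_C_zero]

/-- If the values at `z` of a linear form `l = ∑ a_j X_j + a` change, they only increase. -/
theorem tr_le {φ : A →ₐ[K] Polynomial A} (hφ : ∀ a, (φ a).coeff 0 = a) (z : Ber K A) (s : ℝ≥0) :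
    z ≤ tr φ z s := by
  conv_lhs => rw [← tr_zero hφ z]
  exact tr_mono φ le_rfl zero_le

end shM

end Pool.Agent.TD
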