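import Pool.Agent.TD.T.Basic

/-!
# Gauss extensions (MP_90358a_ag, PAPER2.md Q4)

`gx z s` is the point `|∑ a_i Y^i| = max |a_i|_z s^i` of `M(A[Y])`, `z` in `M(A)`, `s ≥ 0`.
`gauss_mul` is the multiplicativity for polynomials in any number of variables.
-/

open scoped Topology NNReal Polynomial
open Polynomial

namespace Pool.Agent.TD

variable {K A : Type} [NormedField K] [CommRing A] [Algebra K A]

namespace Ber

/-- The value as a non-negative real number. -/
def nv (z : Ber K A) (a : A) : ℝ≥0 := ⟨z.v a, z.nonneg a⟩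

@[simp] theorem coe_nv (z : Ber K A) (a : A) : ((z.nv a : ℝ≥0) : ℝ) = z.v a := rfl

theorem nv_zero (z : Ber K A) : z.nv 0 = 0 := NNReal.eq z.zero

theorem nv_mul (z : Ber K A) (a b : A) : z.nv (a * b) = z.nv a * z.nv b := NNReal.eq (z.mul a b)

theorem sum_lt {ι : Type} (z : Ber K A) (s : Finset ι) (f : ι → A) {M : ℝ} (hM : 0 < M)
    (h : ∀ i ∈ s, z.v (f i) < M) : z.v (∑ i ∈ s, f i) < M := by
  classical
  induction s using Finset.induction_on with
  | empty => simpa [z.zero] using hM
  | insert i s hi ih =>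
    rw [Finset.sum_insert hi]
    refine (z.add _ _).trans_lt (max_lt (h i (Finset.mem_insert_self i s)) (ih fun j hj => ?_))
    exact h j (Finset.mem_insert_of_mem hj)

theorem continuous_nv (a : A) : Continuous (fun z : Ber K A => z.nv a) :=
  Continuous.subtype_mk (continuous_v a) _

/-- Multiplicativity of Gauss norms, abstract form. -/
theorem gauss_mul {G O : Type} [AddCommMonoid G] [Finset.HasAntidiagonal G] [AddCommMonoid O]
    [LinearOrder O] [IsOrderedCancelAddMonoid O] (o : G →+ O) (ho : Function.Injective o)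
    (z : Ber K A) (w : G → ℝ≥0) (hw : ∀ a b, w (a + b) = w a * w b) (f g : G → A)
    (S T U : Finset G) (hS : ∀ i, i ∉ S → f i = 0) (hT : ∀ i, i ∉ T → g i = 0)
    (hU : ∀ i, i ∉ U → ∑ x ∈ Finset.HasAntidiagonal.antidiagonal i, f x.1 * g x.2 = 0) :
    (U.sup fun n => z.nv (∑ x ∈ Finset.HasAntidiagonal.antidiagonal n, f x.1 * g x.2) * w n) =
      (S.sup fun i => z.nv (f i) * w i) * (T.sup fun i => z.nv (g i) * w i) := by
  classical
  have hf : ∀ i, z.nv (f i) * w i ≤ S.sup fun i => z.nv (f i) * w i := by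
    intro i
    by_cases hi : i ∈ S
    · exact Finset.le_sup (f := fun i => z.nv (f i) * w i) hi
    · rw [hS i hi, nv_zero, zero_mul]; exact zero_le
  have hg : ∀ i, z.nv (g i) * w i ≤ T.sup fun i => z.nv (g i) * w i := by
    intro i
    by_cases hi : i ∈ T
    · exact Finset.le_sup (f := fun i => z.nv (g i) * w i) hi
    · rw [hT i hi, nv_zero, zero_mul]; exact zero_le
  obtain ⟨Mf, hMf⟩ : ∃ M, M = S.sup fun i => z.nv (f i) * w i := ⟨_, rfl⟩
  obtain ⟨Mg, hMg⟩ : ∃ M, M = T.sup fun i => z.nv (g i) * w i := ⟨_, rfl⟩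
  rw [← hMf] at hf
  rw [← hMg] at hg
  rw [← hMf, ← hMg]
  have hsum : ∀ n, z.nv (∑ x ∈ Finset.HasAntidiagonal.antidiagonal n, f x.1 * g x.2) * w n ≤ Mf * Mg := by
    intro n
    rcases eq_or_ne (w n) 0 with h0 | h0
    · rw [h0, mul_zero]; exact zero_le
    have hwn : 0 < w n := pos_iff_ne_zero.2 h0
    rw [← le_div_iff₀ hwn, ← NNReal.coe_le_coe, coe_nv]
    refine z.sum_le _ _ (NNReal.coe_nonneg _) ?_
    intro x hx
    rw [← coe_nv, NNReal.coe_le_coe, le_div_iff₀ hwn, nv_mul, ← Finset.HasAntidiagonal.mem_antidiagonal.1 hx, hw]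
    calc z.nv (f x.1) * z.nv (g x.2) * (w x.1 * w x.2)
        = (z.nv (f x.1) * w x.1) * (z.nv (g x.2) * w x.2) := by ring
      _ ≤ Mf * Mg := mul_le_mul' (hf _) (hg _)
  apply le_antisymm
  · exact Finset.sup_le fun n _ => hsum n
  · rcases eq_or_ne Mf 0 with h0 | h0
    · rw [h0, zero_mul]; exact zero_le
    rcases eq_or_ne Mg 0 with h1 | h1
    · rw [h1, mul_zero]; exact zero_le
    -- the last indices where the maxima are attained
    have hSne : S.Nonempty := by
      by_contra h
      rw [Finset.not_nonempty_iff_eq_empty] at h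
      rw [h, Finset.sup_empty] at hMf
      exact h0 hMf
    have hTne : T.Nonempty := by
      by_contra h
      rw [Finset.not_nonempty_iff_eq_empty] at h
      rw [h, Finset.sup_empty] at hMg
      exact h1 hMg
    obtain ⟨a0, ha0, ha0'⟩ := Finset.exists_mem_eq_sup S hSne (fun i => z.nv (f i) * w i)
    obtain ⟨b0, hb0, hb0'⟩ := Finset.exists_mem_eq_sup T hTne (fun i => z.nv (g i) * w i)
    obtain ⟨a, ha, hamax⟩ := Finset.exists_max_image
      (S.filter fun i => z.nv (f i) * w i = Mf) o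
      ⟨a0, Finset.mem_filter.2 ⟨ha0, by rw [hMf]; exact ha0'.symm⟩⟩
    obtain ⟨b, hb, hbmax⟩ := Finset.exists_max_image
      (T.filter fun i => z.nv (g i) * w i = Mg) o
      ⟨b0, Finset.mem_filter.2 ⟨hb0, by rw [hMg]; exact hb0'.symm⟩⟩
    have ha1 := (Finset.mem_filter.1 ha).2
    have hb1 := (Finset.mem_filter.1 hb).2
    have hwa : w a ≠ 0 := by intro h; rw [h, mul_zero] at ha1; exact h0 ha1.symm
    have hwb : w b ≠ 0 := by intro h; rw [h, mul_zero] at hb1; exact h1 hb1.symm
    have hwab : 0 < w (a + b) := by rw [hw]; exact pos_iff_ne_zero.2 (mul_ne_zero hwa hwb)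
    have hab : (a, b) ∈ Finset.HasAntidiagonal.antidiagonal (a + b) := Finset.HasAntidiagonal.mem_antidiagonal.2 rfl
    have hamax' : ∀ i, z.nv (f i) * w i = Mf → o i ≤ o a := by
      intro i hi
      refine hamax i (Finset.mem_filter.2 ⟨?_, hi⟩)
      by_contra hc
      rw [hS i hc, nv_zero, zero_mul] at hi
      exact h0 hi.symm
    have hbmax' : ∀ i, z.nv (g i) * w i = Mg → o i ≤ o b := by
      intro i hi
      refine hbmax i (Finset.mem_filter.2 ⟨?_, hi⟩)
      by_contra hc
      rw [hT i hc, nv_zero, zero_mul] at hi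
      exact h1 hi.symm
    have hval : z.nv (∑ x ∈ Finset.HasAntidiagonal.antidiagonal (a + b), f x.1 * g x.2) * w (a + b) = Mf * Mg := by
      have hterm : z.nv (f a * g b) * w (a + b) = Mf * Mg := by
        rw [nv_mul, hw, ← ha1, ← hb1]; ring
      rw [← Finset.add_sum_erase _ _ hab]
      have hlt : z.v (∑ x ∈ (Finset.HasAntidiagonal.antidiagonal (a + b)).erase (a, b), f x.1 * g x.2) <
          z.v (f a * g b) := by
        have hpos : 0 < z.v (f a * g b) := by
          rw [← coe_nv, NNReal.coe_pos, pos_iff_ne_zero]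
          intro h
          rw [h, zero_mul] at hterm
          exact mul_ne_zero h0 h1 hterm.symm
        refine z.sum_lt _ _ hpos ?_
        intro x hx
        obtain ⟨hx1, hx2⟩ := Finset.mem_erase.1 hx
        have hx3 := Finset.HasAntidiagonal.mem_antidiagonal.1 hx2
        rw [← coe_nv, ← coe_nv, NNReal.coe_lt_coe]
        by_contra hc
        push Not at hc
        have h2 : Mf * Mg ≤ (z.nv (f x.1) * w x.1) * (z.nv (g x.2) * w x.2) := by
          calc Mf * Mg = z.nv (f a * g b) * w (a + b) := hterm.symm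
            _ ≤ z.nv (f x.1 * g x.2) * w (a + b) := mul_le_mul_left hc _
            _ = (z.nv (f x.1) * w x.1) * (z.nv (g x.2) * w x.2) := by
              rw [nv_mul, ← hx3, hw]; ring
        have h3 : z.nv (f x.1) * w x.1 = Mf := by
          apply le_antisymm (hf _)
          by_contra hc'
          push Not at hc'
          exact absurd h2 (not_le.2 (mul_lt_mul'' hc' (lt_of_le_of_ne (hg x.2) (by
            rintro h4
            exact absurd h2 (not_le.2 (by
              rw [h4]; exact mul_lt_mul_of_pos_right hc' (pos_iff_ne_zero.2 h1)))))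
            (zero_le) (zero_le)))
        have h4 : z.nv (g x.2) * w x.2 = Mg := by
          apply le_antisymm (hg _)
          by_contra hc'
          push Not at hc'
          rw [h3] at h2
          exact absurd h2 (not_le.2 (mul_lt_mul_of_pos_left hc' (pos_iff_ne_zero.2 h0)))
        have h5 := hamax' _ h3
        have h6 := hbmax' _ h4
        have h7 : o x.1 + o x.2 = o a + o b := by rw [← map_add, hx3, map_add]
        have h8 : o x.1 = o a := by
          by_contra hne
          exact absurd h7 (ne_of_lt (add_lt_add_of_lt_of_le (lt_of_le_of_ne h5 hne) h6))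
        have h9 : o x.2 = o b := by
          rw [h8] at h7; exact add_left_cancel h7
        exact hx1 (Prod.ext (ho h8) (ho h9))
      have h2 : z.nv (f a * g b + ∑ x ∈ (Finset.HasAntidiagonal.antidiagonal (a + b)).erase (a, b),
          f x.1 * g x.2) = z.nv (f a * g b) := NNReal.eq (z.add_eq hlt)
      rw [h2, hterm]
    rw [← hval]
    by_cases hU' : a + b ∈ U
    · exact Finset.le_sup (f := fun n => z.nv (∑ x ∈ Finset.HasAntidiagonal.antidiagonal n, f x.1 * g x.2) * w n)
        hU'
    · rw [hU _ hU', nv_zero, zero_mul]; exact zero_le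

end Ber

section gx

/-- The value of the Gauss extension. -/
noncomputable def gxn (z : Ber K A) (s : ℝ≥0) (f : A[X]) : ℝ≥0 :=
  f.support.sup fun i => z.nv (f.coeff i) * s ^ i

theorem le_gxn (z : Ber K A) (s : ℝ≥0) (f : A[X]) (i : ℕ) :
    z.nv (f.coeff i) * s ^ i ≤ gxn z s f := by
  by_cases hi : i ∈ f.support
  · exact Finset.le_sup (f := fun i => z.nv (f.coeff i) * s ^ i) hi
  · rw [Polynomial.notMem_support_iff.1 hi, Ber.nv_zero, zero_mul]; exact zero_le

theorem gxn_le (z : Ber K A) (s : ℝ≥0) (f : A[X]) {M : ℝ≥0}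
    (h : ∀ i, z.nv (f.coeff i) * s ^ i ≤ M) : gxn z s f ≤ M :=
  Finset.sup_le fun i _ => h i

theorem gxn_C (z : Ber K A) (s : ℝ≥0) (a : A) : gxn z s (C a) = z.nv a := by
  apply le_antisymm
  · refine gxn_le _ _ _ fun i => ?_
    rw [coeff_C]
    split_ifs with h
    · rw [h, pow_zero, mul_one]
    · rw [Ber.nv_zero, zero_mul]; exact zero_le
  · have := le_gxn z s (C a) 0
    rwa [coeff_C_zero, pow_zero, mul_one] at this

/-- **Gauss extension** of `z` to `A[Y]` with radius `s`. -/
noncomputable def gx (z : Ber K A) (s : ℝ≥0) : Ber K A[X] where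
  v f := gxn z s f
  nonneg f := NNReal.coe_nonneg _
  one := by
    rw [← C_1, gxn_C, Ber.coe_nv, z.one]
  mul f g := by
    rw [← NNReal.coe_mul]
    congr 1
    have h := Ber.gauss_mul (AddMonoidHom.id ℕ) Function.injective_id z (fun i => s ^ i)
      (fun a b => pow_add s a b) f.coeff g.coeff f.support g.support (f * g).support
      (fun i hi => Polynomial.notMem_support_iff.1 hi)
      (fun i hi => Polynomial.notMem_support_iff.1 hi)
      (fun i hi => by rw [← coeff_mul]; exact Polynomial.notMem_support_iff.1 hi)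
    simp only [← coeff_mul] at h
    exact h
  add f g := by
    rw [← NNReal.coe_max, NNReal.coe_le_coe]
    refine gxn_le _ _ _ fun i => ?_
    have h1 : z.nv ((f + g).coeff i) ≤ max (z.nv (f.coeff i)) (z.nv (g.coeff i)) := by
      rw [coeff_add]; exact z.add _ _
    calc z.nv ((f + g).coeff i) * s ^ i
        ≤ max (z.nv (f.coeff i)) (z.nv (g.coeff i)) * s ^ i := mul_le_mul_left h1 _
      _ = max (z.nv (f.coeff i) * s ^ i) (z.nv (g.coeff i) * s ^ i) := max_mul _ _ _
      _ ≤ _ := max_le_max (le_gxn _ _ _ _) (le_gxn _ _ _ _)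
  ext c := by
    rw [IsScalarTower.algebraMap_apply K A A[X], ← C_eq_algebraMap, gxn_C, Ber.coe_nv, z.ext]

theorem gx_v (z : Ber K A) (s : ℝ≥0) (f : A[X]) : (gx z s).v f = gxn z s f := rfl

theorem gx_le (z : Ber K A) (s : ℝ≥0) (f : A[X]) (i : ℕ) :
    z.v (f.coeff i) * (s : ℝ) ^ i ≤ (gx z s).v f := by
  have h := NNReal.coe_le_coe.2 (le_gxn z s f i)
  rw [gx_v]
  simpa using h

theorem gx_v_le (z : Ber K A) (s : ℝ≥0) (f : A[X]) {M : ℝ} (hM : 0 ≤ M)
    (h : ∀ i, z.v (f.coeff i) * (s : ℝ) ^ i ≤ M) : (gx z s).v f ≤ M := by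
  lift M to ℝ≥0 using hM
  rw [gx_v, NNReal.coe_le_coe]
  refine gxn_le _ _ _ fun i => ?_
  rw [← NNReal.coe_le_coe]
  simpa using h i

theorem gx_ex (z : Ber K A) (s : ℝ≥0) (f : A[X]) :
    ∃ i, (gx z s).v f = z.v (f.coeff i) * (s : ℝ) ^ i := by
  rcases f.support.eq_empty_or_nonempty with h | h
  · refine ⟨0, ?_⟩
    have h0 : f = 0 := Polynomial.support_eq_empty.1 h
    subst h0
    rw [(gx z s).zero, coeff_zero, z.zero, zero_mul]
  · obtain ⟨i, hi, hi'⟩ := Finset.exists_mem_eq_sup f.support h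
      (fun i => z.nv (f.coeff i) * s ^ i)
    refine ⟨i, ?_⟩
    rw [gx_v, gxn, hi']
    simp

@[simp] theorem gx_C (z : Ber K A) (s : ℝ≥0) (a : A) : (gx z s).v (C a) = z.v a := by
  rw [gx_v, gxn_C, Ber.coe_nv]

@[simp] theorem gx_X (z : Ber K A) (s : ℝ≥0) : (gx z s).v X = s := by
  apply le_antisymm
  · refine gx_v_le _ _ _ (NNReal.coe_nonneg _) fun i => ?_
    rw [coeff_X]
    split_ifs with h
    · rw [← h, z.one, pow_one, one_mul]
    · rw [z.zero, zero_mul]; exact NNReal.coe_nonneg _
  · have := gx_le z s X 1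
    rwa [coeff_X_one, z.one, one_mul, pow_one] at this

theorem gx_zero (z : Ber K A) (f : A[X]) : (gx z 0).v f = z.v (f.coeff 0) := by
  apply le_antisymm
  · refine gx_v_le _ _ _ (z.nonneg _) fun i => ?_
    rcases Nat.eq_zero_or_pos i with h | h
    · rw [h, pow_zero, mul_one]
    · rw [NNReal.coe_zero, zero_pow h.ne', mul_zero]; exact z.nonneg _
  · have := gx_le z 0 f 0
    rwa [pow_zero, mul_one] at this

/-- The Gauss extension is the largest extension. -/
theorem le_gx {z : Ber K A} {s : ℝ≥0} {w : Ber K A[X]} (h : ∀ a, w.v (C a) ≤ z.v a)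
    (hX : w.v X ≤ s) : w ≤ gx z s := by
  intro f
  conv_lhs => rw [f.as_sum_support_C_mul_X_pow]
  refine w.sum_le _ _ ((gx z s).nonneg f) fun i _ => ?_
  rw [w.mul, w.pow]
  exact (mul_le_mul (h _) (pow_le_pow_left₀ (w.nonneg _) hX _) (pow_nonneg (w.nonneg _) _)
    (z.nonneg _)).trans (gx_le z s f i)

theorem gx_mono {z z' : Ber K A} {s s' : ℝ≥0} (h : z ≤ z') (hs : s ≤ s') :
    gx z s ≤ gx z' s' := by
  refine le_gx (fun a => ?_) ?_
  · rw [gx_C]; exact h a
  · rw [gx_X]; exact_mod_cast hs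

theorem continuous_gx : Continuous fun p : Ber K A × ℝ≥0 => gx p.1 p.2 := by
  rw [Ber.continuous_iff]
  intro f
  apply NNReal.continuous_coe.comp
  show Continuous fun p : Ber K A × ℝ≥0 =>
    f.support.sup fun i => p.1.nv (f.coeff i) * p.2 ^ i
  refine Continuous.finset_sup_apply fun i _ => ?_
  exact ((Ber.continuous_nv (f.coeff i)).comp continuous_fst).mul (continuous_snd.pow i)

end gx

section path

/-- The path `z_s`, for a homomorphism `φ : A → A[Y]`. -/
noncomputable def tr (φ : A →ₐ[K] A[X]) (z : Ber K A) (s : ℝ≥0) : Ber K A := Ber.res φ (gx z s)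

theorem tr_v (φ : A →ₐ[K] A[X]) (z : Ber K A) (s : ℝ≥0) (a : A) :
    (tr φ z s).v a = (gx z s).v (φ a) := rfl

theorem tr_zero {φ : A →ₐ[K] A[X]} (hφ : ∀ a, (φ a).coeff 0 = a) (z : Ber K A) :
    tr φ z 0 = z := by
  apply Ber.ext_v
  intro a
  rw [tr_v, gx_zero, hφ]

theorem tr_mono (φ : A →ₐ[K] A[X]) {z z' : Ber K A} {s s' : ℝ≥0} (h : z ≤ z') (hs : s ≤ s') :
    tr φ z s ≤ tr φ z' s' := fun a => gx_mono h hs (φ a)

theorem continuous_tr (φ : A →ₐ[K] A[X]) :
    Continuous fun p : Ber K A × ℝ≥0 => tr φ p.1 p.2 :=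
  (Ber.res_continuous φ).comp continuous_gx

theorem tr_C {φ : A →ₐ[K] A[X]} (z : Ber K A) (s : ℝ≥0) {a : A} (h : φ a = C a) :
    (tr φ z s).v a = z.v a := by
  rw [tr_v, h, gx_C]

theorem tr_X {φ : A →ₐ[K] A[X]} (z : Ber K A) (s : ℝ≥0) {a : A} (h : φ a = C a + X) :
    (tr φ z s).v a = max (z.v a) s := by
  rw [tr_v, h]
  apply le_antisymm
  · refine ((gx z s).add _ _).trans ?_
    rw [gx_C, gx_X]
  · apply max_le
    · have h1 := gx_le z s (C a + X) 0
      rw [coeff_add, coeff_C_zero, coeff_X_zero, add_zero, pow_zero, mul_one] at h1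
      exact h1
    · have h1 := gx_le z s (C a + X) 1
      rw [coeff_add, coeff_C_succ, coeff_X_one, zero_add, z.one, one_mul, pow_one] at h1
      exact h1

/-- The translation `X ↦ X + Y` of `R[X]`. -/
noncomputable def shX (K R : Type) [NormedField K] [CommRing R] [Algebra K R] :
    R[X] →ₐ[K] R[X][X] :=
  (Polynomial.aeval (C X + X : R[X][X]) : R[X] →ₐ[R] R[X][X]).restrictScalars K

theorem shX_C (R : Type) [CommRing R] [Algebra K R] (a : R) : shX K R (C a) = C (C a) := by
  show Polynomial.aeval (C X + X : R[X][X]) (C a) = C (C a)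
  rw [aeval_C]
  rfl

theorem shX_X (R : Type) [CommRing R] [Algebra K R] : shX K R X = C X + X := by
  show Polynomial.aeval (C X + X : R[X][X]) X = C X + X
  rw [aeval_X]

theorem shX_coeff (R : Type) [CommRing R] [Algebra K R] (f : R[X]) (n : ℕ) :
    (shX K R f).coeff n = Polynomial.hasseDeriv n f := by
  have h1 : shX K R f = Polynomial.taylor X (f.map C) := by
    show Polynomial.aeval (C X + X : R[X][X]) f = _
    rw [taylor_apply, Polynomial.comp, eval₂_map, aeval_def, add_comm]
    rfl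
  rw [h1, taylor_coeff, hasseDeriv_apply, hasseDeriv_apply]
  rw [Polynomial.sum, Polynomial.sum, eval_finsetSum]
  have hinj : Function.Injective (C : R →+* R[X]) := C_injective
  rw [support_map_of_injective _ hinj]
  apply Finset.sum_congr rfl
  intro i _
  rw [coeff_map, eval_monomial, ← C_mul_X_pow_eq_monomial, C_mul, C_eq_natCast]

theorem shX_coeff_zero (R : Type) [CommRing R] [Algebra K R] (f : R[X]) :
    (shX K R f).coeff 0 = f := by
  rw [shX_coeff, hasseDeriv_zero]; rfl

end path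

end Pool.Agent.TD
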